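import Pool.Agent.R368.Deg.Main

/-!
# Murre's conjectures (A) and (D) as a polynomial identity for one correspondence

Let `𝒱` be a class of smooth projective varieties over a field `k` which is closed under products
(for example all complex ones), with Chow groups `C` (rational coefficients) and a Weil cohomology
theory `W`. A *degree operator* of `X`, `n = dim X`, is a correspondence `d` in `CH^n(X × X)` which
acts on `H^j(X)` as multiplication by `j`, for all `j`. The following are equivalent:

1. each `X` in `𝒱` has a Chow–Künneth decomposition and satisfies Murre's conjecture (D):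
   `F^1 CH^i(X) = ker(cl)` for all decompositions and all `i`;
2. each `X` in `𝒱` has *one* degree operator `d` such that
   `([d, ·] + 1) ([d, ·] + 2) ⋯ ([d, ·] + 2n)` kills the homologically trivial correspondences in
   `CH^n(X × X)`;
3. the standard conjecture of Künneth type holds for `𝒱`, and the identity in 2 holds for all `X` and
   *all* degree operators `d` of `X`;
4. the standard conjecture of Künneth type holds for `𝒱`, and for all `X`, all degree operators `d`
   of `X` and all `i` the operator `d (d - 1) ⋯ (d - (2i - 1))` kills the homologically trivial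
   classes in `CH^i(X)`.

So neither decompositions nor filtrations are needed to state the conjecture, and the existence of
Chow–Künneth decompositions follows from the identities.

For a single `X`: if the identity in 2 holds for one degree operator of `X` then `X` has a
Chow–Künneth decomposition, (D), (C) and the first half of (B) hold for `X`, the identities in 2 and 4 hold for all degree operators of `X`, and `π ↦ ∑_j j π_j` is a bijection
from the set of Chow–Künneth decompositions of `X` onto the set of its degree operators. Conversely,
if `X` has a Chow–Künneth decomposition and `F^1 = ker(cl)` on `CH^n(X × X)`, for all decompositions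
of `X × X`, then the identity in 2 holds for all degree operators of `X`.
-/

open Pool.Agent.H914 Pool.Agent.R903 Pool.Agent.R368

universe u v w

namespace Pool.Agent.Results.MP_583472_ag.DegreeOperators

theorem result {k : Type u} [Field k] {𝒱 : VarClass k} {C : ChowTheory.{u, v} 𝒱}
    (W : WeilTheory.{u, v, w} C) (hP : C.Polarized) :
    List.TFAE [∀ X : 𝒱.Obj, MurreAD W X,
      ∀ X : 𝒱.Obj, ∃ d, W.IsDegree X d ∧ Lowers W X d,
      W.Kunneth ∧ ∀ (X : 𝒱.Obj) d, W.IsDegree X d → Lowers W X d,
      W.Kunneth ∧ ∀ (X : 𝒱.Obj) d, W.IsDegree X d → ∀ i, Annihilates W X d i] ∧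
    (∀ (X : 𝒱.Obj) d, W.IsDegree X d → Lowers W X d →
      MurreAD W X ∧ W.MurreC X ∧ (∀ i, W.MurreB0 X i) ∧
        ∀ d', W.IsDegree X d' → Lowers W X d' ∧ (∀ i, Annihilates W X d' i) ∧ GivesCK W X d') ∧
    ∀ X : 𝒱.Obj, W.HasCK X → (∀ σ, W.IsCK (X.prod X) σ → W.FirstIsKernel σ X.dim) →
      ∀ d, W.IsDegree X d → Lowers W X d := by
  refine ⟨tfae hP, fun X d hd hL => ?_, fun X hX hD d hd => ?_⟩
  · obtain ⟨h1, h2⟩ := hL.exists hd
    have hD := h2.murreD h1 hP
    refine ⟨⟨⟨_, h1⟩, hD⟩, h2.murreC h1,
      fun i => WeilTheory.murreB0_of_firstIsKernel fun σ hσ => hD σ hσ i, fun d' hd' => ?_⟩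
    have hL' := lowers_of h1 h2 hd'
    exact ⟨hL', fun i => annihilates_of h1 h2 hD hd' i, givesCK hd' (defect_eq_zero hd' hL')⟩
  · obtain ⟨π, hπ⟩ := hX
    exact lowers_of hπ (WeilTheory.lowersIndex_of_square hD hπ hπ) hd

end Pool.Agent.Results.MP_583472_ag.DegreeOperators
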