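import Pool.Agent.R898.MLM

/-!
# Murre's conjecture (D) is equivalent to the injectivity of the Lefschetz maps on homologically
# trivial cycles

The setting: `𝒱` is a class of smooth projective varieties over a field, closed under products, `C`
stands for the Chow groups with rational coefficients, `W` for a Weil cohomology theory (for example
singular cohomology); `CH^m(X)_hom = homTriv W X m`, `n = dim X`.

* `LefInj W X D`: the maps `D^(n+1-2m) : CH^m(X)_hom → CH^(n+1-m)(X)_hom` are injective for all
  `m ≤ (n+1)/2`.
* `LefStd W X D`: `D` is a divisor class and the standard conjecture of Lefschetz type holds for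
  `(X, D)`.
* A *Lefschetz system* for `(X, D)` (`IsSystem`) is an `sl₂`-triple `(Δ_* D, ∑ (j - n) π_j, Λ)` of
  correspondences, the `π_j` being orthogonal idempotents with sum the diagonal. Such systems are known
  for abelian varieties and symmetric ample `D` (Deninger–Murre, Künnemann), for curves and `D` a
  multiple of a point, for hypersurfaces and the hyperplane class, for K3 surfaces and ample `D`
  (Beauville–Voisin), and for products of such pairs with the class `p_1^* D + p_2^* E`. `Good`:
  there is such a system and `LefStd` holds (it does in the examples).

The theorem: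

1. Let `(X, D)` be good. If the Lefschetz maps of `(X × X, p_1^* D + p_2^* D)` are injective on
   homologically trivial cycles then Murre's conjectures (A), (B), (C), (D) hold for `X`.
2. Let `S` be a class of good pairs, closed under products, such that each `X` in `𝒱` is dominated by
   a `Z` with `(Z, D)` in `S` (for example the products of curves, with `𝒱` the varieties dominated by
   them; `𝒱` contains the abelian varieties). The following are equivalent:
   the Lefschetz maps of the pairs in `S` are injective on homologically trivial cycles; Murre's
   conjecture (D) holds for all `X` in `𝒱`; Murre's conjectures (A), (B), (C), (D) hold for all `X` in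
   `𝒱`; there is a Bloch–Beilinson filtration for `𝒱`; the Lefschetz maps of `(X, D)` are injective on
   homologically trivial cycles for all `X` in `𝒱` and all `D` with `LefStd`.
-/

open Pool.Agent.H914 Pool.Agent.R903 Pool.Agent.R898.HL Pool.Agent.R898.ML

universe u v w

/-- Murre's conjectures and the injectivity of the Lefschetz maps. -/
theorem Pool.Agent.Results.MP_583472_ag.LefschetzInjectivity.result {k : Type u} [Field k]
    {𝒱 : VarClass k} (C : ChowTheory.{u, v} 𝒱) (hPol : C.Polarized) (W : WeilTheory.{u, v, w} C) :
    (∀ (X : 𝒱.Obj) (D : C.CH X), Good W X D → Pool.Agent.R898.ML.LefInj W (X.prod X) (sumClass C D D) →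
        Murre W X) ∧
      ∀ S : ∀ X : 𝒱.Obj, C.CH X → Prop, IsClass W S →
        [∀ X D, S X D → Pool.Agent.R898.ML.LefInj W X D,
          ∀ X : 𝒱.Obj, Pool.Agent.R898.ML.MurreD W X, ∀ X : 𝒱.Obj, Murre W X,
          ∃ F : ∀ X : 𝒱.Obj, ℕ → ℕ → Submodule ℚ (C.CH X), IsBB W F,
          ∀ (X : 𝒱.Obj) (D : C.CH X), LefStd W X D → Pool.Agent.R898.ML.LefInj W X D].TFAE :=
  ⟨fun _ _ hg hQ => murre_of_square hPol hg hQ, fun _ hS => tfae hPol hS⟩
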