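import Pool.Agent.R903.CancelD

/-!
# Murre's conjecture (D) and summands with local endomorphism rings

Let `X` and `Y` be smooth projective varieties of the same dimension over a field, and suppose that
`h(Y) = h(X) ⊕ M_1 ⊕ ⋯ ⊕ M_r` in the category of Chow motives with rational coefficients, where the
ring of endomorphisms of each `M_j` is local (for example `M_j` is a Lefschetz motive, a Tate twist
of `h^1` of a simple abelian variety, or any indecomposable motive which is finite-dimensional in
the sense of Kimura).

* Suppose that `X` has a Chow–Künneth decomposition and that the cohomology of each `M_j` is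
  concentrated in one degree. Then (D) holds for all Chow–Künneth decompositions of `Y` if and only
  if it holds for all Chow–Künneth decompositions of `X` and the motives `M_j` satisfy (D).
* Suppose that `h(X) ⊕ M_1 ⊕ ⋯ ⊕ M_r ≅ h(Y) ≅ h(X') ⊕ M'_1 ⊕ ⋯ ⊕ M'_s`, where the `M_j`, `M'_j` are
  of this kind, pure and satisfy (D). Then (D) holds for `X` if and only if it holds for `X'`.

Nothing is assumed on `h(X)` itself. For example if `Y` is the blow-up of a threefold `X` along a
point or a smooth curve, then the `M_j` are Lefschetz motives and Tate twists of `h^1` of simple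
abelian varieties, which satisfy (D): so (D) is a birational invariant of smooth projective
threefolds (this example is not formalized here).

Idea of the proof: by the exchange property each Chow–Künneth decomposition `ρ` of `Y` is, up to
isomorphism of the pieces, obtained from a Chow–Künneth decomposition of `X` by adding the `M_j`:
`ρ_i = a ∘ π'_i ∘ b + ∑ x_j ∘ e_j ∘ y_j` for some correspondences `a`, `b`, `x_j`, `y_j` of degree
zero, where `j` runs over the `j` such that `e_j` factors through `ρ_i`.
-/

open Pool.Agent.H914 Pool.Agent.R903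

universe u v w

namespace Pool.Agent.Results.MP_583472_ag.LocalSummands

theorem result {k : Type u} [Field k] {𝒱 : VarClass k} {C : ChowTheory.{u, v} 𝒱}
    (W : WeilTheory.{u, v, w} C) {X Y : 𝒱.Obj} {α : C.CH (X.prod Y)} {β : C.CH (Y.prod X)}
    {r : ℕ} {e : Fin r → C.CH (Y.prod Y)} (h : C.LocalComplement X.dim Y.dim α β e)
    (hdim : X.dim = Y.dim) (hpure : ∀ j, ∃ n, W.PureIn (e j) n) :
    (W.HasCK X → (W.MurreD Y ↔ W.MurreD X ∧ ∀ j, W.PieceD (e j))) ∧
    ∀ (X' : 𝒱.Obj) (α' : C.CH (X'.prod Y)) (β' : C.CH (Y.prod X')) (s : ℕ)
      (e' : Fin s → C.CH (Y.prod Y)), C.LocalComplement X'.dim Y.dim α' β' e' →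
      X'.dim = Y.dim → (∀ j, ∃ n, W.PureIn (e' j) n) → (∀ j, W.PieceD (e j)) →
      (∀ j, W.PieceD (e' j)) → (W.MurreD X ↔ W.MurreD X') := by
  refine ⟨fun hX => h.murreD_iff hdim hX hpure, fun X' α' β' s e' h' hdim' hpure' hD hD' => ?_⟩
  exact ⟨fun hX => h'.murreD_left hdim' hpure' (h.murreD_right hdim hX hD),
    fun hX => h.murreD_left hdim hpure (h'.murreD_right hdim' hX hD')⟩

end Pool.Agent.Results.MP_583472_ag.LocalSummands
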