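import Pool.Agent.R903.MurreD

/-!
# Murre's conjecture (D) for self-correspondences implies (D), (C) and half of (B)

Let `𝒱` be a class of smooth projective varieties over a field `k` which is closed under products
(for example all complex ones), with Chow groups `C` (rational coefficients) and a Weil cohomology
theory `W`. The following are equivalent:

1. Murre's conjecture (D), `F^1 CH^i(X) = ker(cl)`, holds for all `X` in `𝒱`, all Chow–Künneth
   decompositions of `X` and all `i`;
2. for all `X` in `𝒱` and all Chow–Künneth decompositions of `X × X` the equality holds for the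
   correspondences in `CH^(dim X)(X × X)`;
3. each `X` in `𝒱` which has a Chow–Künneth decomposition satisfies (C) (the filtration is
   independent of the decomposition), and `F^1 CH^i(X) = ker(cl)` for *one* decomposition of `X`;
4. each `X` in `𝒱` which has a Chow–Künneth decomposition has *one* decomposition `π` such that the
   homologically trivial correspondences `γ` in `CH^(dim X)(X × X)` strictly lower the index:
   `π b ∘ γ ∘ π a = 0` for all `a ≤ b`.

In particular (D) implies (C) and the first half `F^0 CH^i(X) = CH^i(X)` of (B).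

Moreover, for a single variety `X`: the equality in 2 for `X` implies (C), (D) and the first half of
(B) for `X`; the condition in 4 for one decomposition of `X` implies it for all pairs of
decompositions, and (C), (D) for `X`, and that `X` has no phantoms; and the equality
`F^1 CH^i(X) = ker(cl)` for one `i` and all decompositions implies `F^0 CH^i(X) = CH^i(X)` for all
decompositions.
-/

open Pool.Agent.H914 Pool.Agent.R903

universe u v w

namespace Pool.Agent.Results.MP_583472_ag.SelfCorrespondencesSuffice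

theorem result {k : Type u} [Field k] {𝒱 : VarClass k} {C : ChowTheory.{u, v} 𝒱}
    (W : WeilTheory.{u, v, w} C) (hP : C.Polarized) :
    List.TFAE [∀ X : 𝒱.Obj, W.MurreD X,
      ∀ (X : 𝒱.Obj) σ, W.IsCK (X.prod X) σ → W.FirstIsKernel σ X.dim,
      ∀ X : 𝒱.Obj, W.HasCK X → W.MurreC X ∧ ∃ π, W.IsCK X π ∧ ∀ i, W.FirstIsKernel π i,
      ∀ X : 𝒱.Obj, W.HasCK X → ∃ π, W.IsCK X π ∧ W.LowersIndex π π] ∧
    (∀ X : 𝒱.Obj, (∀ σ, W.IsCK (X.prod X) σ → W.FirstIsKernel σ X.dim) →
      W.MurreD X ∧ W.MurreC X ∧ ∀ i, W.MurreB0 X i) ∧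
    (∀ (X : 𝒱.Obj) π, W.IsCK X π → W.LowersIndex π π →
      W.MurreD X ∧ W.MurreC X ∧ W.NoPhantoms X ∧
        ∀ π' π'', W.IsCK X π' → W.IsCK X π'' → W.LowersIndex π' π'') ∧
    ∀ (X : 𝒱.Obj) i, (∀ π, W.IsCK X π → W.FirstIsKernel π i) → W.MurreB0 X i := by
  refine ⟨WeilTheory.murreD_tfae hP, fun X hD => ?_, fun X π hπ hL =>
    ⟨hL.murreD hπ hP, hL.murreC hπ, hL.noPhantoms hπ, fun π' π'' h' h'' => hL.all hπ h' h''⟩,
    fun X i hD => WeilTheory.murreB0_of_firstIsKernel hD⟩
  by_cases hX : W.HasCK X
  · obtain ⟨π, hπ⟩ := hX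
    have hL := WeilTheory.lowersIndex_of_square hD hπ hπ
    have h1 := hL.murreD hπ hP
    exact ⟨h1, hL.murreC hπ, fun i => WeilTheory.murreB0_of_firstIsKernel fun σ hσ => h1 σ hσ i⟩
  · exact ⟨fun π hπ => absurd ⟨π, hπ⟩ hX, fun i j π π' hπ => absurd ⟨π, hπ⟩ hX,
      fun i π hπ => absurd ⟨π, hπ⟩ hX⟩

end Pool.Agent.Results.MP_583472_ag.SelfCorrespondencesSuffice
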